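import Pool.Agent.Lib_helper25.K4R.Removal
import Pool.Agent.Lib_helper23.ES.Main

/-! In every large set of integers few pairs meet all quadruples without a gap. -/

set_option autoImplicit false

open Finset

namespace Pool.Agent.Lib_helper25.K4R

open Pool.Agent.Lib_helper23.PG Pool.Agent.Lib_helper23.ES

/-- A small set of pairs meets all quadruples of `A` without a difference in `G`. -/
theorem hit {k : ℕ} (hk : 0 < k) {D : Set ℕ} (hD : HitsBins 4 k D) {G : ℤ → Prop}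
    (hG : ∀ d ∈ D, G (d : ℤ)) (ε : ℝ) (hε : 0 < ε) : ∃ N : ℕ, ∀ A : Finset ℤ, N ≤ #A →
      (∀ a ∈ A, ∀ b ∈ A, Even (a - b)) → (∃ h : ℤ, ∀ a ∈ A, ¬ 3 ∣ a - h) →
      ∃ F : Finset (ℤ × ℤ), (#F : ℝ) ≤ ε * (#A : ℝ) ^ 2 ∧
        ∀ q : Fin 4 → ℤ, (∀ i, q i ∈ A) → (∀ i j, i ≠ j → NG G (q i) (q j)) →
          ∃ i j, i < j ∧ (q i, q j) ∈ F := by
  classical
  obtain ⟨c, hc, C, hC, hfew⟩ := few_cliques hk hD hG
  obtain ⟨l, δ, hδ, hrem⟩ := removal (min (ε / 2) 1) (lt_min (by positivity) one_pos)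
    (min_le_right _ _)
  have ht : Filter.Tendsto (fun n : ℕ => C * (n : ℝ) ^ (-c)) Filter.atTop (nhds (C * 0)) :=
    ((tendsto_rpow_neg_atTop hc).comp tendsto_natCast_atTop_atTop).const_mul C
  rw [mul_zero] at ht
  obtain ⟨N1, hN1⟩ := Filter.eventually_atTop.1 (ht.eventually (gt_mem_nhds hδ))
  refine ⟨max l (max N1 1), fun A hA hpar hmis => ?_⟩
  have hAl : l ≤ #A := (le_max_left _ _).trans hA
  have hAN : N1 ≤ #A := ((le_max_left _ _).trans (le_max_right _ _)).trans hA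
  have hA1 : 1 ≤ #A := ((le_max_right _ _).trans (le_max_right _ _)).trans hA
  have hApos : (0 : ℝ) < #A := by exact_mod_cast hA1
  set Γ : SimpleGraph {x // x ∈ A} := SimpleGraph.fromRel (fun x y => NG G x.1 y.1) with hΓ
  have hadj : ∀ x y : {x // x ∈ A}, Γ.Adj x y ↔ NG G x.1 y.1 := by
    intro x y
    rw [hΓ, SimpleGraph.fromRel_adj]
    constructor
    · rintro ⟨-, h | h⟩
      · exact h
      · exact NG_symm G _ _ h
    · intro h
      exact ⟨fun he => h.1 (by rw [he]), Or.inl h⟩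
  have hcard : Fintype.card {x // x ∈ A} = #A := Fintype.card_coe A
  have hK := hfew 3 A (Or.inr ⟨hpar, Or.inr ⟨rfl, hmis⟩⟩) hA1
  have hcount : (#((univ : Finset ({x // x ∈ A} × {x // x ∈ A} × {x // x ∈ A} × {x // x ∈ A})).filter
      fun (x, a, b, c) ↦ Γ.Adj x a ∧ Γ.Adj x b ∧ Γ.Adj x c ∧ Γ.Adj a b ∧ Γ.Adj a c ∧ Γ.Adj b c) : ℝ) ≤
      K (NG G) 4 A := by
    unfold K
    rw [Nat.cast_le]
    refine card_le_card_of_injOn (fun p => ![p.1.1, p.2.1.1, p.2.2.1.1, p.2.2.2.1]) ?_ ?_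
    · rintro ⟨x, a, b, c⟩ hp
      rw [mem_coe, mem_filter] at hp
      obtain ⟨-, h1, h2, h3, h4, h5, h6⟩ := hp
      rw [hadj] at h1 h2 h3 h4 h5 h6
      rw [mem_coe, Cl, mem_filter, Fintype.mem_piFinset]
      refine ⟨?_, ?_⟩
      · intro i
        fin_cases i
        · exact x.2
        · exact a.2
        · exact b.2
        · exact c.2
      · have s1 := NG_symm G _ _ h1
        have s2 := NG_symm G _ _ h2
        have s3 := NG_symm G _ _ h3
        have s4 := NG_symm G _ _ h4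
        have s5 := NG_symm G _ _ h5
        have s6 := NG_symm G _ _ h6
        intro i j hij
        fin_cases i <;> fin_cases j <;> first | exact absurd rfl hij | assumption
    · rintro ⟨x, a, b, c⟩ - ⟨x', a', b', c'⟩ - h
      have e0 := congrFun h 0
      have e1 := congrFun h 1
      have e2 := congrFun h 2
      have e3 := congrFun h 3
      simp only [Matrix.cons_val_zero, Matrix.cons_val_one, Matrix.cons_val] at e0 e1 e2 e3
      rw [Subtype.ext e0, Subtype.ext e1, Subtype.ext e2, Subtype.ext e3]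
  have hlt : K (NG G) 4 A < δ * (#A : ℝ) ^ 4 := by
    refine lt_of_le_of_lt hK ?_
    have h1 := hN1 #A hAN
    have h2 : C * (#A : ℝ) ^ (3 + 1) * (#A : ℝ) ^ (-c) = (C * (#A : ℝ) ^ (-c)) * (#A : ℝ) ^ 4 := by ring
    rw [h2]
    exact mul_lt_mul_of_pos_right h1 (by positivity)
  obtain ⟨F, hF1, hF2⟩ := hrem {x // x ∈ A} Γ (by rw [hcard]; exact hAl) (by
    rw [hcard]
    exact lt_of_le_of_lt hcount hlt)
  refine ⟨F.image (fun p => (p.1.1, p.2.1)), ?_, ?_⟩
  · have h1 : (#(F.image (fun p => (p.1.1, p.2.1))) : ℝ) ≤ #F := by exact_mod_cast card_image_le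
    refine h1.trans (hF1.trans ?_)
    rw [hcard]
    refine mul_le_mul_of_nonneg_right ?_ (by positivity)
    have := min_le_left (ε / 2) 1
    linarith
  · intro q hq hng
    have hm : ∀ i j, i ≠ j → Γ.Adj ⟨q i, hq i⟩ ⟨q j, hq j⟩ := fun i j hij => (hadj _ _).2 (hng i j hij)
    have h := hF2 ⟨q 0, hq 0⟩ ⟨q 1, hq 1⟩ ⟨q 2, hq 2⟩ ⟨q 3, hq 3⟩ (hm 0 1 (by decide))
      (hm 0 2 (by decide)) (hm 0 3 (by decide)) (hm 1 2 (by decide)) (hm 1 3 (by decide))
      (hm 2 3 (by decide))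
    rcases h with h | h | h | h | h | h
    · exact ⟨0, 1, by decide, mem_image.2 ⟨_, h, rfl⟩⟩
    · exact ⟨0, 2, by decide, mem_image.2 ⟨_, h, rfl⟩⟩
    · exact ⟨0, 3, by decide, mem_image.2 ⟨_, h, rfl⟩⟩
    · exact ⟨1, 2, by decide, mem_image.2 ⟨_, h, rfl⟩⟩
    · exact ⟨1, 3, by decide, mem_image.2 ⟨_, h, rfl⟩⟩
    · exact ⟨2, 3, by decide, mem_image.2 ⟨_, h, rfl⟩⟩

end Pool.Agent.Lib_helper25.K4R
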