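import Mathlib

/-! The counting lemma for complete graphs with four vertices, from the triangle counting lemma. -/

set_option autoImplicit false

open Finset Fintype

namespace Pool.Agent.Lib_helper25.K4R

variable {α : Type} [DecidableEq α] (G : SimpleGraph α) [DecidableRel G.Adj]

/-- The members of `s` with few neighbours in `t`. -/
noncomputable def bad (e : ℝ) (s t : Finset α) : Finset α :=
  {x ∈ s | (#{y ∈ t | G.Adj x y} : ℝ) < (G.edgeDensity s t - e) * #t}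

theorem card_interedges_bad_le (e : ℝ) (s t : Finset α) :
    (#(Rel.interedges G.Adj (bad G e s t) t) : ℝ) ≤
      #(bad G e s t) * #t * (G.edgeDensity s t - e) := by
  classical
  refine (Nat.cast_le.2 <| (card_le_card <| subset_of_eq (Rel.interedges_eq_biUnion _)).trans
    card_biUnion_le).trans ?_
  simp_rw [Nat.cast_sum, card_map, ← nsmul_eq_mul, smul_mul_assoc, mul_comm (#t : ℝ)]
  exact sum_le_card_nsmul _ _ _ fun x hx ↦ (mem_filter.1 hx).2.le

theorem card_bad_le {e : ℝ} {s t : Finset α} (dst : 2 * e ≤ G.edgeDensity s t)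
    (hst : G.IsUniform e s t) : (#(bad G e s t) : ℝ) ≤ #s * e := by
  have he : e ≤ 1 := (le_mul_of_one_le_left hst.pos.le (by simp)).trans
    (dst.trans <| mod_cast G.edgeDensity_le_one _ _)
  by_contra! h
  have h1 : |(G.edgeDensity (bad G e s t) t - G.edgeDensity s t : ℝ)| < e :=
    hst (filter_subset _ _) Subset.rfl h.le (mul_le_of_le_one_right (Nat.cast_nonneg _) he)
  have h2 : (G.edgeDensity (bad G e s t) t : ℝ) ≤ G.edgeDensity s t - e := by
    rw [SimpleGraph.edgeDensity_def]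
    push_cast
    have := hst.pos
    refine div_le_of_le_mul₀ (by positivity) (sub_nonneg_of_le <| by linarith) ?_
    rw [mul_comm]
    exact card_interedges_bad_le G e s t
  rw [abs_sub_lt_iff] at h1
  linarith

omit [DecidableEq α] in
/-- Large subsets of a uniform dense pair are a uniform dense pair. -/
theorem sub_pair {d : ℝ} (hd : 0 < d) (hd1 : d ≤ 1) {s t s' t' : Finset α}
    (hu : G.IsUniform (d ^ 2 / 16) s t) (hden : d ≤ G.edgeDensity s t) (hs : s' ⊆ s) (ht : t' ⊆ t)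
    (hs' : (#s : ℝ) * (d / 2) ≤ #s') (ht' : (#t : ℝ) * (d / 2) ≤ #t') :
    2 * (d / 4) ≤ (G.edgeDensity s' t' : ℝ) ∧ G.IsUniform (d / 4) s' t' := by
  have hd2 : d ^ 2 ≤ d := by nlinarith
  have hs0 : (0 : ℝ) ≤ #s := by positivity
  have ht0 : (0 : ℝ) ≤ #t := by positivity
  have h1 : (#s : ℝ) * (d ^ 2 / 16) ≤ #s' := le_trans (mul_le_mul_of_nonneg_left (by linarith) hs0) hs'
  have h2 : (#t : ℝ) * (d ^ 2 / 16) ≤ #t' := le_trans (mul_le_mul_of_nonneg_left (by linarith) ht0) ht'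
  have h3 := hu hs ht h1 h2
  rw [abs_sub_lt_iff] at h3
  refine ⟨by linarith [h3.2], ?_⟩
  intro s'' hs'' t'' ht'' hcs hct
  have h4 : (#s : ℝ) * (d ^ 2 / 16) ≤ #s'' := by
    refine le_trans ?_ hcs
    have : (#s : ℝ) * (d / 2) * (d / 4) ≤ #s' * (d / 4) := mul_le_mul_of_nonneg_right hs' (by positivity)
    refine le_trans ?_ this
    have e : (#s : ℝ) * (d / 2) * (d / 4) = #s * (d ^ 2 / 8) := by ring
    rw [e]
    exact mul_le_mul_of_nonneg_left (by nlinarith [sq_nonneg d]) hs0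
  have h5 : (#t : ℝ) * (d ^ 2 / 16) ≤ #t'' := by
    refine le_trans ?_ hct
    have : (#t : ℝ) * (d / 2) * (d / 4) ≤ #t' * (d / 4) := mul_le_mul_of_nonneg_right ht' (by positivity)
    refine le_trans ?_ this
    have e : (#t : ℝ) * (d / 2) * (d / 4) = #t * (d ^ 2 / 8) := by ring
    rw [e]
    exact mul_le_mul_of_nonneg_left (by nlinarith [sq_nonneg d]) ht0
  have h6 := hu (hs''.trans hs) (ht''.trans ht) h4 h5
  rw [abs_sub_lt_iff] at h6 ⊢
  constructor <;> linarith [h3.1, h3.2, h6.1, h6.2]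

/-- The counting lemma for complete graphs with four vertices. -/
theorem k4_count {d : ℝ} (hd : 0 < d) (hd1 : d ≤ 1) (s t u v : Finset α)
    (ust : G.IsUniform (d ^ 2 / 16) s t) (dst : d ≤ G.edgeDensity s t)
    (usu : G.IsUniform (d ^ 2 / 16) s u) (dsu : d ≤ G.edgeDensity s u)
    (usv : G.IsUniform (d ^ 2 / 16) s v) (dsv : d ≤ G.edgeDensity s v)
    (utu : G.IsUniform (d ^ 2 / 16) t u) (dtu : d ≤ G.edgeDensity t u)
    (utv : G.IsUniform (d ^ 2 / 16) t v) (dtv : d ≤ G.edgeDensity t v)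
    (uuv : G.IsUniform (d ^ 2 / 16) u v) (duv : d ≤ G.edgeDensity u v) :
    d ^ 6 / 2048 * (#s * #t * #u * #v) ≤
      (#((s ×ˢ t ×ˢ u ×ˢ v).filter fun (x, a, b, c) ↦ G.Adj x a ∧ G.Adj x b ∧ G.Adj x c ∧
        G.Adj a b ∧ G.Adj a c ∧ G.Adj b c) : ℝ) := by
  classical
  have hd2 : d ^ 2 ≤ d := by nlinarith
  have he : 2 * (d ^ 2 / 16) ≤ d := by nlinarith
  set X := s \ (bad G (d ^ 2 / 16) s t ∪ bad G (d ^ 2 / 16) s u ∪ bad G (d ^ 2 / 16) s v) with hX
  have hXs : X ⊆ s := sdiff_subset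
  have b1 := card_bad_le G (he.trans dst) ust
  have b2 := card_bad_le G (he.trans dsu) usu
  have b3 := card_bad_le G (he.trans dsv) usv
  have hXc : (13 / 16 : ℝ) * #s ≤ #X := by
    have h1 : #s ≤ #X + (#(bad G (d ^ 2 / 16) s t) + #(bad G (d ^ 2 / 16) s u) +
        #(bad G (d ^ 2 / 16) s v)) := by
      have h2 : s ⊆ X ∪ (bad G (d ^ 2 / 16) s t ∪ bad G (d ^ 2 / 16) s u ∪ bad G (d ^ 2 / 16) s v) := by
        intro x hx
        by_cases h : x ∈ bad G (d ^ 2 / 16) s t ∪ bad G (d ^ 2 / 16) s u ∪ bad G (d ^ 2 / 16) s v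
        · exact mem_union_right _ h
        · exact mem_union_left _ (mem_sdiff.2 ⟨hx, h⟩)
      refine (card_le_card h2).trans ((card_union_le _ _).trans ?_)
      gcongr
      exact (card_union_le _ _).trans (by gcongr; exact card_union_le _ _)
    have h2 : (#s : ℝ) ≤ #X + (#(bad G (d ^ 2 / 16) s t) + #(bad G (d ^ 2 / 16) s u) +
        #(bad G (d ^ 2 / 16) s v)) := by exact_mod_cast h1
    have hs0 : (0 : ℝ) ≤ #s := by positivity
    have h3 : (#s : ℝ) * (d ^ 2 / 16) ≤ #s * (1 / 16) :=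
      mul_le_mul_of_nonneg_left (by nlinarith) hs0
    linarith
  -- neighbourhoods
  have hN : ∀ x ∈ X, ∀ w : Finset α, (w = t ∨ w = u ∨ w = v) →
      (#w : ℝ) * (d / 2) ≤ #{y ∈ w | G.Adj x y} := by
    intro x hx w hw
    rw [hX, mem_sdiff, mem_union, mem_union, not_or, not_or] at hx
    obtain ⟨hxs, ⟨n1, n2⟩, n3⟩ := hx
    have hdw : d ≤ G.edgeDensity s w := by rcases hw with rfl | rfl | rfl <;> assumption
    have hnw : x ∉ bad G (d ^ 2 / 16) s w := by rcases hw with rfl | rfl | rfl <;> assumption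
    rw [bad, mem_filter, not_and, not_lt] at hnw
    refine le_trans ?_ (hnw hxs)
    rw [mul_comm]
    refine mul_le_mul_of_nonneg_right ?_ (by positivity)
    nlinarith
  have htri : ∀ x ∈ X, d ^ 6 / 1024 * (#t * #u * #v) ≤
      (#((({y ∈ t | G.Adj x y} ×ˢ {y ∈ u | G.Adj x y} ×ˢ {y ∈ v | G.Adj x y}).filter
        fun (a, b, c) ↦ G.Adj a b ∧ G.Adj a c ∧ G.Adj b c)) : ℝ) := by
    intro x hx
    have n1 := hN x hx t (Or.inl rfl)
    have n2 := hN x hx u (Or.inr (Or.inl rfl))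
    have n3 := hN x hx v (Or.inr (Or.inr rfl))
    obtain ⟨p1, q1⟩ := sub_pair G hd hd1 utu dtu (filter_subset (G.Adj x) t) (filter_subset (G.Adj x) u)
      n1 n2
    obtain ⟨p2, q2⟩ := sub_pair G hd hd1 utv dtv (filter_subset (G.Adj x) t) (filter_subset (G.Adj x) v)
      n1 n3
    obtain ⟨p3, q3⟩ := sub_pair G hd hd1 uuv duv (filter_subset (G.Adj x) u) (filter_subset (G.Adj x) v)
      n2 n3
    refine le_trans ?_ (G.triangle_counting' p1 q1 p2 q2 p3 q3)
    have h0 : (1 / 2 : ℝ) * (d / 4) ^ 3 ≤ (1 - 2 * (d / 4)) * (d / 4) ^ 3 :=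
      mul_le_mul_of_nonneg_right (by linarith) (by positivity)
    have h1 : ((#t : ℝ) * (d / 2)) * ((#u : ℝ) * (d / 2)) * ((#v : ℝ) * (d / 2)) ≤
        #{y ∈ t | G.Adj x y} * #{y ∈ u | G.Adj x y} * #{y ∈ v | G.Adj x y} := by
      gcongr
    calc d ^ 6 / 1024 * (#t * #u * #v)
        = (1 / 2 : ℝ) * (d / 4) ^ 3 *
          (((#t : ℝ) * (d / 2)) * ((#u : ℝ) * (d / 2)) * ((#v : ℝ) * (d / 2))) := by ring
      _ ≤ (1 - 2 * (d / 4)) * (d / 4) ^ 3 *
          (#{y ∈ t | G.Adj x y} * #{y ∈ u | G.Adj x y} * #{y ∈ v | G.Adj x y}) :=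
          mul_le_mul h0 h1 (by positivity) (by
            refine mul_nonneg (by linarith) (by positivity))
      _ = _ := by ring
  -- sum over `X`
  have hsub : (X.biUnion fun x =>
      ((({y ∈ t | G.Adj x y} ×ˢ {y ∈ u | G.Adj x y} ×ˢ {y ∈ v | G.Adj x y}).filter
        fun (a, b, c) ↦ G.Adj a b ∧ G.Adj a c ∧ G.Adj b c)).image fun p => (x, p)) ⊆
      (s ×ˢ t ×ˢ u ×ˢ v).filter fun (x, a, b, c) ↦ G.Adj x a ∧ G.Adj x b ∧ G.Adj x c ∧
        G.Adj a b ∧ G.Adj a c ∧ G.Adj b c := by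
    rintro ⟨x, a, b, c⟩ h
    rw [mem_biUnion] at h
    obtain ⟨x', hx', h⟩ := h
    rw [mem_image] at h
    obtain ⟨⟨a', b', c'⟩, h, he⟩ := h
    rw [mem_filter, mem_product, mem_product, mem_filter, mem_filter, mem_filter] at h
    simp only [Prod.mk.injEq] at he
    obtain ⟨rfl, rfl, rfl, rfl⟩ := he
    obtain ⟨⟨⟨h1, h2⟩, ⟨h3, h4⟩, ⟨h5, h6⟩⟩, h7⟩ := h
    rw [mem_filter, mem_product, mem_product, mem_product]
    exact ⟨⟨hXs hx', h1, h3, h5⟩, h2, h4, h6, h7⟩
  refine le_trans ?_ (Nat.cast_le.2 (card_le_card hsub))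
  rw [card_biUnion]
  · push_cast
    have h1 : ∀ x ∈ X, d ^ 6 / 1024 * (#t * #u * #v) ≤
        (#(((({y ∈ t | G.Adj x y} ×ˢ {y ∈ u | G.Adj x y} ×ˢ {y ∈ v | G.Adj x y}).filter
          fun (a, b, c) ↦ G.Adj a b ∧ G.Adj a c ∧ G.Adj b c)).image fun p => (x, p)) : ℝ) := by
      intro x hx
      rw [card_image_of_injective _ (Prod.mk_right_injective x)]
      exact htri x hx
    have h2 := card_nsmul_le_sum X _ _ h1
    rw [nsmul_eq_mul] at h2
    refine le_trans ?_ h2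
    have h3 : (1 / 2 : ℝ) * #s ≤ #X := by
      have hs0 : (0 : ℝ) ≤ #s := by positivity
      linarith
    calc d ^ 6 / 2048 * (#s * #t * #u * #v) = (1 / 2 * #s) * (d ^ 6 / 1024 * (#t * #u * #v)) := by ring
      _ ≤ _ := mul_le_mul_of_nonneg_right h3 (by positivity)
  · intro x _ y _ hxy
    rw [Function.onFun, Finset.disjoint_left]
    rintro ⟨z, p⟩ h1 h2
    rw [mem_image] at h1 h2
    obtain ⟨_, _, e1⟩ := h1
    obtain ⟨_, _, e2⟩ := h2
    simp only [Prod.mk.injEq] at e1 e2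
    exact hxy (e1.1.trans e2.1.symm)

end Pool.Agent.Lib_helper25.K4R
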