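import Pool.Agent.Lib_helper25.K4R.Hit

/-! Four linear forms at almost all elements of a set of small doubling. -/

set_option autoImplicit false

open Finset
open scoped Pointwise

namespace Pool.Agent.Lib_helper25.K4R

open Pool.Agent.Lib_helper23.PG Pool.Agent.Lib_helper23.ES

theorem dil_mem {P : Finset ℤ} {y : ℤ} (hy : y ∈ P) (n : ℕ) : (n : ℤ) * y ∈ n • P := by
  have h : n • y ∈ n • P := Finset.nsmul_mem_nsmul hy
  rwa [nsmul_eq_mul] at h

theorem pl {P : Finset ℤ} (hP : P.Nonempty) {K : ℝ} (hK : (#(P + P) : ℝ) ≤ K * #P) (m n : ℕ) :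
    (#(m • P - n • P) : ℝ) ≤ K ^ (m + n) * #P := by
  have h := Finset.pluennecke_ruzsa_inequality_nsmul_sub_nsmul_add hP P m n
  have h0 : (((#(m • P - n • P) : ℕ) : NNRat) : ℝ) ≤
      ((((#(P + P) : ℕ) : NNRat) / ((#P : ℕ) : NNRat)) ^ (m + n) * ((#P : ℕ) : NNRat) : NNRat) :=
    NNRat.cast_le.2 h
  have h1 : (#(m • P - n • P) : ℝ) ≤ ((#(P + P) : ℝ) / #P) ^ (m + n) * #P := by
    simpa using h0
  refine h1.trans ?_
  have hp : (0 : ℝ) < #P := by exact_mod_cast hP.card_pos
  have h2 : (#(P + P) : ℝ) / #P ≤ K := by rwa [div_le_iff₀ hp]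
  gcongr

theorem dil_card {P T : Finset ℤ} (hT : T ⊆ P) (hP : P.Nonempty) {K : ℝ}
    (hK : (#(P + P) : ℝ) ≤ K * #P) (a c : ℤ) :
    (#((P ×ˢ T).image fun p => 6 * p.1 + a * p.2 + c) : ℝ) ≤ K ^ (6 + a.natAbs) * #P := by
  rcases Int.natAbs_eq a with h | h
  · have h1 : ((P ×ˢ T).image fun p => 6 * p.1 + a * p.2 + c) ⊆
        ((6 + a.natAbs) • P - 0 • P).image fun z => z + c := by
      intro z hz
      rw [mem_image] at hz
      obtain ⟨⟨y, t⟩, hyt, rfl⟩ := hz
      rw [mem_product] at hyt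
      refine mem_image.2 ⟨6 * y + a * t, ?_, rfl⟩
      rw [zero_nsmul, sub_zero, add_nsmul]
      refine add_mem_add ?_ ?_
      · exact_mod_cast dil_mem hyt.1 6
      · have h3 : a * t = (a.natAbs : ℤ) * t := by rw [← h]
        show a * t ∈ a.natAbs • P
        rw [h3]
        exact dil_mem (hT hyt.2) a.natAbs
    have h2 : (#((P ×ˢ T).image fun p => 6 * p.1 + a * p.2 + c) : ℝ) ≤
        #((6 + a.natAbs) • P - 0 • P) := by
      exact_mod_cast (card_le_card h1).trans card_image_le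
    refine h2.trans ?_
    simpa using pl hP hK (6 + a.natAbs) 0
  · have h1 : ((P ×ˢ T).image fun p => 6 * p.1 + a * p.2 + c) ⊆
        (6 • P - a.natAbs • P).image fun z => z + c := by
      intro z hz
      rw [mem_image] at hz
      obtain ⟨⟨y, t⟩, hyt, rfl⟩ := hz
      rw [mem_product] at hyt
      refine mem_image.2 ⟨6 * y + a * t, ?_, rfl⟩
      have h3 : 6 * y + a * t = 6 * y - (a.natAbs : ℤ) * t := by
        rw [sub_eq_add_neg, ← neg_mul]
        congr 2
      rw [h3]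
      refine sub_mem_sub ?_ ?_
      · exact_mod_cast dil_mem hyt.1 6
      · exact dil_mem (hT hyt.2) a.natAbs
    have h2 : (#((P ×ˢ T).image fun p => 6 * p.1 + a * p.2 + c) : ℝ) ≤
        #(6 • P - a.natAbs • P) := by
      exact_mod_cast (card_le_card h1).trans card_image_le
    exact h2.trans (pl hP hK 6 a.natAbs)

/-- The numbers `t` at which the four forms are admissible, without a difference in `G`. -/
def Bad (G : ℤ → Prop) (a c : Fin 4 → ℤ) (t : ℤ) : Prop :=
  (∀ i j, Even ((a i * t + c i) - (a j * t + c j))) ∧ (∃ h : ℤ, ∀ i, ¬ 3 ∣ a i * t + c i - h) ∧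
    ∀ i j, i ≠ j → ¬ G ((a i * t + c i) - (a j * t + c j))

theorem forms {k : ℕ} (hk : 0 < k) {D : Set ℕ} (hD : HitsBins 4 k D) {G : ℤ → Prop}
    (hG : ∀ d ∈ D, G (d : ℤ)) (a : Fin 4 → ℤ) (ha : Function.Injective a) (K η : ℝ) (hη : 0 < η) :
    ∃ L : ℕ, ∀ P : Finset ℤ, L ≤ #P → (#(P + P) : ℝ) ≤ K * #P → ∀ c : Fin 4 → ℤ,
      ({t : ℤ | t ∈ P ∧ Bad G a c t}.ncard : ℝ) ≤ η * #P := by
  classical
  set K1 : ℝ := max K 1 with hK1
  have hK11 : 1 ≤ K1 := le_max_right _ _
  set M : ℝ := ∑ i, K1 ^ (6 + (a i).natAbs) with hM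
  have hM0 : 0 < M := by
    rw [hM]
    exact Finset.sum_pos (fun i _ => by positivity) univ_nonempty
  set ε : ℝ := η / (400 * M ^ 2) with hε
  have hε0 : 0 < ε := by positivity
  obtain ⟨N, hN⟩ := hit hk hD hG ε hε0
  refine ⟨max (max N 1) ⌈32 / η⌉₊, fun P hL hPP c => ?_⟩
  have hLN : N ≤ #P := ((le_max_left _ _).trans (le_max_left _ _)).trans hL
  have hL1 : 1 ≤ #P := ((le_max_right _ _).trans (le_max_left _ _)).trans hL
  have hLη : 32 / η ≤ #P := (Nat.le_ceil _).trans (by exact_mod_cast (le_max_right _ _).trans hL)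
  have hP : P.Nonempty := card_pos.1 hL1
  have hp : (0 : ℝ) < #P := by exact_mod_cast hL1
  have hPP1 : (#(P + P) : ℝ) ≤ K1 * #P :=
    hPP.trans (mul_le_mul_of_nonneg_right (le_max_left _ _) hp.le)
  have hset : {t : ℤ | t ∈ P ∧ Bad G a c t} = ((P.filter (Bad G a c) : Finset ℤ) : Set ℤ) := by
    ext t
    rw [mem_coe, mem_filter]
    rfl
  rw [hset, Set.ncard_coe_finset]
  set B := P.filter (Bad G a c) with hB
  by_contra! hcon
  -- coincidences
  set Cc := P.filter (fun t => ∃ i j, i ≠ j ∧ a i * t + c i = a j * t + c j) with hCc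
  have hCcard : #Cc ≤ 16 := by
    have h1 : Cc ⊆ (univ : Finset (Fin 4 × Fin 4)).biUnion
        (fun p => P.filter (fun t => p.1 ≠ p.2 ∧ a p.1 * t + c p.1 = a p.2 * t + c p.2)) := by
      intro t ht
      rw [hCc, mem_filter] at ht
      obtain ⟨htP, i, j, hij, he⟩ := ht
      exact mem_biUnion.2 ⟨(i, j), mem_univ _, mem_filter.2 ⟨htP, hij, he⟩⟩
    refine (card_le_card h1).trans ((card_biUnion_le_card_mul _ _ 1 ?_).trans (by simp))
    intro p _
    refine card_le_one.2 ?_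
    intro t ht t' ht'
    rw [mem_filter] at ht ht'
    have h2 : (a p.1 - a p.2) * (t - t') = 0 := by linear_combination ht.2.2 - ht'.2.2
    rcases mul_eq_zero.1 h2 with h3 | h3
    · exact absurd (ha (sub_eq_zero.1 h3)) ht.2.1
    · exact sub_eq_zero.1 h3
  set B' := B \ Cc with hB'
  have hB'card : η / 2 * #P ≤ (#B' : ℝ) := by
    have h1 : #B ≤ #B' + #Cc := by
      have := card_le_card_sdiff_add_card (s := B) (t := Cc)
      exact this
    have h2 : (#B : ℝ) ≤ #B' + 16 := by exact_mod_cast h1.trans (by omega)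
    have h3 : 16 ≤ η / 2 * #P := by
      rw [div_le_iff₀ hη] at hLη
      linarith
    linarith
  -- residue class modulo 6
  obtain ⟨τ, -, hτ⟩ := Finset.exists_le_card_fiber_of_nsmul_le_card_of_maps_to
    (s := B') (t := Finset.Ico (0 : ℤ) 6) (f := fun x : ℤ => x % 6) (b := η / 12 * #P)
    (fun x _ => mem_Ico.2 ⟨Int.emod_nonneg _ (by norm_num), Int.emod_lt_of_pos _ (by norm_num)⟩)
    ⟨0, by simp⟩ (by
      have : #(Finset.Ico (0 : ℤ) 6) = 6 := by simp
      rw [this, nsmul_eq_mul]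
      push_cast
      linarith)
  set T := {x ∈ B' | x % 6 = τ} with hT
  have hTB : T ⊆ B' := filter_subset _ _
  have hTP : T ⊆ P := hTB.trans (sdiff_subset.trans (filter_subset _ _))
  have hTpos : (0 : ℝ) < #T := lt_of_lt_of_le (by positivity) hτ
  obtain ⟨t0, ht0⟩ : T.Nonempty := card_pos.1 (by exact_mod_cast hTpos)
  have hbad : ∀ t ∈ T, Bad G a c t := by
    intro t ht
    have := hTB ht
    rw [hB', mem_sdiff, hB, mem_filter] at this
    exact this.1.2
  have hmod : ∀ t ∈ T, ∀ t' ∈ T, (6 : ℤ) ∣ t - t' := by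
    intro t ht t' ht'
    rw [hT, mem_filter] at ht ht'
    exact Int.dvd_of_emod_eq_zero (by rw [Int.sub_emod, ht.2, ht'.2, sub_self, Int.zero_emod])
  have hco : ∀ t ∈ T, ∀ i j, i ≠ j → a i * t + c i ≠ a j * t + c j := by
    intro t ht i j hij he
    have := hTB ht
    rw [hB', mem_sdiff] at this
    exact this.2 (by rw [hCc, mem_filter]; exact ⟨hTP ht, i, j, hij, he⟩)
  -- the set of integers
  set A := (univ : Finset (Fin 4)).biUnion
    (fun i => (P ×ˢ T).image fun p => 6 * p.1 + a i * p.2 + c i) with hA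
  have hAm : ∀ u ∈ A, ∃ i, ∃ y, ∃ t ∈ T, u = 6 * y + a i * t + c i := by
    intro u hu
    rw [hA, mem_biUnion] at hu
    obtain ⟨i, -, hu⟩ := hu
    rw [mem_image] at hu
    obtain ⟨⟨y, t⟩, hyt, rfl⟩ := hu
    exact ⟨i, y, t, (mem_product.1 hyt).2, rfl⟩
  have hmA : ∀ i, ∀ y ∈ P, ∀ t ∈ T, 6 * y + a i * t + c i ∈ A := by
    intro i y hy t ht
    rw [hA, mem_biUnion]
    exact ⟨i, mem_univ _, mem_image.2 ⟨(y, t), mem_product.2 ⟨hy, ht⟩, rfl⟩⟩
  have hAle : (#A : ℝ) ≤ M * #P := by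
    have h1 : (#A : ℝ) ≤ ∑ i : Fin 4, (#((P ×ˢ T).image fun p => 6 * p.1 + a i * p.2 + c i) : ℝ) := by
      exact_mod_cast card_biUnion_le
    refine h1.trans ?_
    rw [hM, sum_mul]
    exact sum_le_sum fun i _ => dil_card hTP hP hPP1 (a i) (c i)
  have hAge : #P ≤ #A := by
    refine card_le_card_of_injOn (fun y => 6 * y + a 0 * t0 + c 0) (fun y hy => ?_) ?_
    · exact hmA 0 y hy t0 ht0
    · intro y _ y' _ h
      dsimp only at h
      omega
  obtain ⟨F, hF1, hF2⟩ := hN A (hLN.trans hAge)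
    (by
      intro u hu v hv
      obtain ⟨i, y, t, ht, rfl⟩ := hAm u hu
      obtain ⟨j, y', t', ht', rfl⟩ := hAm v hv
      have h1 := (hbad t ht).1 i j
      obtain ⟨r, hr⟩ := hmod t ht t' ht'
      have h2 : 6 * y + a i * t + c i - (6 * y' + a j * t' + c j) =
          ((a i * t + c i) - (a j * t + c j)) + 2 * (3 * (y - y') + 3 * (a j * r)) := by
        linear_combination a j * hr
      rw [h2]
      exact h1.add (even_two_mul _))
    (by
      obtain ⟨h, hh⟩ := (hbad t0 ht0).2.1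
      refine ⟨h, fun u hu h3 => ?_⟩
      obtain ⟨i, y, t, ht, rfl⟩ := hAm u hu
      obtain ⟨r, hr⟩ := hmod t ht t0 ht0
      refine hh i ?_
      have h2 : a i * t0 + c i - h = (6 * y + a i * t + c i - h) - 3 * (2 * y + 2 * (a i * r)) := by
        linear_combination -(a i) * hr
      rw [h2]
      exact dvd_sub h3 (dvd_mul_right _ _))
  -- count the pairs
  have hcov : P ×ˢ T ⊆ (univ : Finset (Fin 4 × Fin 4)).biUnion (fun r => (P ×ˢ T).filter
      (fun p => r.1 < r.2 ∧ (6 * p.1 + a r.1 * p.2 + c r.1, 6 * p.1 + a r.2 * p.2 + c r.2) ∈ F)) := by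
    rintro ⟨y, t⟩ hyt
    have hyt' := mem_product.1 hyt
    obtain ⟨i, j, hij, hF⟩ := hF2 (fun i => 6 * y + a i * t + c i)
      (fun i => hmA i y hyt'.1 t hyt'.2) (by
        intro i j hij
        have h1 := hco t hyt'.2 i j hij
        have h2 := (hbad t hyt'.2).2.2 i j hij
        have h3 := (hbad t hyt'.2).2.2 j i hij.symm
        have e1 : 6 * y + a i * t + c i - (6 * y + a j * t + c j) =
          (a i * t + c i) - (a j * t + c j) := by ring
        have e2 : 6 * y + a j * t + c j - (6 * y + a i * t + c i) =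
          (a j * t + c j) - (a i * t + c i) := by ring
        refine ⟨?_, ?_, ?_⟩
        · intro he
          apply h1
          have : 6 * y + a i * t + c i = 6 * y + a j * t + c j := he
          linarith
        · show ¬ G (6 * y + a j * t + c j - (6 * y + a i * t + c i))
          rw [e2]
          exact h3
        · show ¬ G (6 * y + a i * t + c i - (6 * y + a j * t + c j))
          rw [e1]
          exact h2)
    exact mem_biUnion.2 ⟨(i, j), mem_univ _, mem_filter.2 ⟨hyt, hij, hF⟩⟩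
  have hcnt : #(P ×ˢ T) ≤ 16 * #F := by
    refine (card_le_card hcov).trans ((card_biUnion_le_card_mul _ _ #F ?_).trans (by simp))
    intro r _
    refine card_le_card_of_injOn
      (fun p => (6 * p.1 + a r.1 * p.2 + c r.1, 6 * p.1 + a r.2 * p.2 + c r.2)) ?_ ?_
    · intro p hp
      rw [mem_coe, mem_filter] at hp
      exact hp.2.2
    · rintro ⟨y, t⟩ h1 ⟨y', t'⟩ h2 h
      rw [mem_coe, mem_filter] at h1
      simp only [Prod.mk.injEq] at h
      have h3 : (a r.1 - a r.2) * (t - t') = 0 := by linear_combination h.1 - h.2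
      have h4 : t = t' := by
        rcases mul_eq_zero.1 h3 with h5 | h5
        · exact absurd (ha (sub_eq_zero.1 h5)) (ne_of_lt h1.2.1)
        · exact sub_eq_zero.1 h5
      subst h4
      have h5 : y = y' := by
        have := h.1
        omega
      rw [h5]
  have hcntR : (#P : ℝ) * #T ≤ 16 * #F := by
    rw [card_product] at hcnt
    exact_mod_cast hcnt
  have h1 : (#A : ℝ) ^ 2 ≤ (M * #P) ^ 2 := by gcongr
  have h2 : (#F : ℝ) ≤ ε * (M * #P) ^ 2 := hF1.trans (mul_le_mul_of_nonneg_left h1 hε0.le)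
  have h3 : ε * (M * #P) ^ 2 = η / 400 * (#P : ℝ) ^ 2 := by
    rw [hε]
    field_simp
  have h4 : (#P : ℝ) * (η / 12 * #P) ≤ #P * #T := mul_le_mul_of_nonneg_left hτ hp.le
  have h5 : (0 : ℝ) < (#P : ℝ) ^ 2 := by positivity
  nlinarith [mul_pos hη h5]

end Pool.Agent.Lib_helper25.K4R
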