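import Pool.Agent.Lib_helper25.K4R.Forms
import Pool.Agent.Lib_helper42.AAM.Mult

/-! Almost all elements of a set of small doubling have many multiples among the gaps. -/

set_option autoImplicit false

open Finset Pointwise

namespace Pool.Agent.Lib_helper25.K4R

open Pool.Agent.Lib_helper23.PG Pool.Agent.Lib_helper23.ES

/-- Every four integers in `[0, K]` that miss a class modulo `3` (every four, if `3 ∣ t`) have a
difference `k` with `k * t` in `D`. -/
def Four (D : Set ℕ) (K t : ℕ) : Prop :=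
  ∀ q : Fin 4 → ℕ, StrictMono q → q 3 ≤ K → ((∃ r < 3, ∀ i, q i % 3 ≠ r) ∨ 3 ∣ t) →
    ∃ i j, i < j ∧ (q j - q i) * t ∈ D

theorem almost {k : ℕ} (hk : 0 < k) {D : Set ℕ} (hD : HitsBins 4 k D) (K : ℕ) (M η : ℝ)
    (hη : 0 < η) : ∃ L : ℕ, ∀ P : Finset ℕ, (∀ t ∈ P, 0 < t ∧ Even t) → L ≤ #P →
      (#(P + P) : ℝ) ≤ M * #P → ∃ E ⊆ P, (#E : ℝ) ≤ η * #P ∧ ∀ t ∈ P \ E, Four D K t := by
  classical
  set S : Finset (Fin 4 → ℕ) := (Fintype.piFinset fun _ => range (K + 1)).filter StrictMono with hS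
  have hex : ∀ q ∈ S, ∃ L : ℕ, ∀ P : Finset ℤ, L ≤ #P → (#(P + P) : ℝ) ≤ M * #P →
      ∀ c : Fin 4 → ℤ, ({t : ℤ | t ∈ P ∧ Bad (fun z : ℤ => ∃ d ∈ D, (d : ℤ) = z)
        (fun i => (q i : ℤ)) c t}.ncard : ℝ) ≤ η / (#S + 1) * #P := by
    intro q hq
    have hinj : Function.Injective fun i => (q i : ℤ) := by
      intro i j hij
      have hij' : (q i : ℤ) = q j := hij
      exact (mem_filter.1 hq).2.injective (by exact_mod_cast hij')
    exact forms hk hD (fun d hd => ⟨d, hd, rfl⟩) _ hinj M _ (by positivity)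
  choose! L hL using hex
  refine ⟨∑ q ∈ S, L q, fun P hP hLP hPP => ?_⟩
  have hcastinj : Function.Injective (fun n : ℕ => (n : ℤ)) := Nat.cast_injective
  set P' : Finset ℤ := P.image fun n : ℕ => (n : ℤ) with hP'
  have hcard : #P' = #P := card_image_of_injective P hcastinj
  have hPP' : P' + P' = (P + P).image fun n : ℕ => (n : ℤ) := by
    rw [hP']
    exact (image_image₂_distrib (f := (· + ·)) (g := fun n : ℕ => (n : ℤ))
      (f' := (· + ·)) (g₁ := fun n : ℕ => (n : ℤ)) (g₂ := fun n : ℕ => (n : ℤ))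
      (fun a b => by push_cast; rfl)).symm
  have hcardPP : #(P' + P') = #(P + P) := by
    rw [hPP']
    exact card_image_of_injective _ hcastinj
  set E : Finset ℕ := P.filter fun t => ¬ Four D K t with hE
  refine ⟨E, filter_subset _ _, ?_, fun t ht => ?_⟩
  · have hsub : E ⊆ S.biUnion fun q => P.filter fun t : ℕ =>
        Bad (fun z : ℤ => ∃ d ∈ D, (d : ℤ) = z) (fun i => (q i : ℤ)) (fun _ => 0) (t : ℤ) := by
      intro t ht
      obtain ⟨htP, ht2⟩ := mem_filter.1 ht
      unfold Four at ht2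
      push Not at ht2
      obtain ⟨q, hq, hq3, hqr, hno⟩ := ht2
      obtain ⟨ht0, hte⟩ := hP t htP
      have hte' : Even (t : ℤ) := by exact_mod_cast hte
      refine mem_biUnion.2 ⟨q, mem_filter.2 ⟨Fintype.mem_piFinset.2 fun i => mem_range.2 ?_, hq⟩,
        mem_filter.2 ⟨htP, ?_, ?_, ?_⟩⟩
      · exact Nat.lt_succ_of_le ((hq.monotone (Fin.le_last i)).trans hq3)
      · intro i j
        rw [add_zero, add_zero, ← sub_mul]
        exact hte'.mul_left _
      · rcases hqr with ⟨r, hr, hr3⟩ | h3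
        · by_cases h3t : 3 ∣ t
          · refine ⟨1, fun i hdiv => ?_⟩
            obtain ⟨s, rfl⟩ := h3t
            have h1 : (3 : ℤ) ∣ (q i : ℤ) * ((3 * s : ℕ) : ℤ) := by
              push_cast
              exact ⟨(q i : ℤ) * s, by ring⟩
            rw [add_zero] at hdiv
            have h2 : (3 : ℤ) ∣ 1 := by
              have := dvd_sub h1 hdiv
              rwa [sub_sub_cancel] at this
            omega
          · refine ⟨r * t, fun i hdiv => ?_⟩
            rw [add_zero, ← sub_mul] at hdiv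
            rcases Int.prime_three.dvd_or_dvd hdiv with h | h
            · have h' : (3 : ℤ) ∣ (q i : ℤ) - r := h
              exact hr3 i (by omega)
            · exact h3t (by exact_mod_cast h)
        · refine ⟨1, fun i hdiv => ?_⟩
          obtain ⟨s, rfl⟩ := h3
          have h1 : (3 : ℤ) ∣ (q i : ℤ) * ((3 * s : ℕ) : ℤ) := by
            push_cast
            exact ⟨(q i : ℤ) * s, by ring⟩
          rw [add_zero] at hdiv
          have h2 : (3 : ℤ) ∣ 1 := by
            have := dvd_sub h1 hdiv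
            rwa [sub_sub_cancel] at this
          omega
      · intro i j hij
        rintro ⟨d, hd, hde⟩
        rw [add_zero, add_zero, ← sub_mul] at hde
        have hde' : (d : ℤ) = ((q i : ℤ) - q j) * t := hde
        rcases lt_or_gt_of_ne hij with h | h
        · have h1 : q i < q j := hq h
          have h2 : ((q i : ℤ) - q j) * t < 0 :=
            mul_neg_of_neg_of_pos (by omega) (by exact_mod_cast ht0)
          rw [← hde'] at h2
          omega
        · have h1 : q j < q i := hq h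
          refine hno j i h ?_
          have h2 : d = (q i - q j) * t := by
            zify [h1.le]
            exact hde'
          rwa [h2] at hd
    have h1 : (#E : ℝ) ≤ ∑ q ∈ S, (#(P.filter fun t : ℕ =>
        Bad (fun z : ℤ => ∃ d ∈ D, (d : ℤ) = z) (fun i => (q i : ℤ)) (fun _ => 0) (t : ℤ)) : ℝ) := by
      exact_mod_cast (card_le_card hsub).trans card_biUnion_le
    refine h1.trans ?_
    have h2 : ∀ q ∈ S, (#(P.filter fun t : ℕ =>
        Bad (fun z : ℤ => ∃ d ∈ D, (d : ℤ) = z) (fun i => (q i : ℤ)) (fun _ => 0) (t : ℤ)) : ℝ) ≤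
        η / (#S + 1) * #P := by
      intro q hq
      have h3 := hL q hq P' (by
        rw [hcard]
        exact (single_le_sum (f := L) (fun i _ => Nat.zero_le _) hq).trans hLP) (by
        rw [hcard, hcardPP]
        exact hPP) (fun _ => 0)
      rw [hcard] at h3
      refine le_trans ?_ h3
      rw [Nat.cast_le]
      rw [← card_image_of_injective _ hcastinj, ← Set.ncard_coe_finset]
      refine Set.ncard_le_ncard ?_ (Set.Finite.subset P'.finite_toSet fun t ht => ht.1)
      intro z hz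
      obtain ⟨t, ht, rfl⟩ := mem_image.1 (mem_coe.1 hz)
      obtain ⟨ht1, ht2⟩ := mem_filter.1 ht
      exact ⟨mem_image.2 ⟨t, ht1, rfl⟩, ht2⟩
    calc _ ≤ ∑ _q ∈ S, η / (#S + 1) * (#P : ℝ) := sum_le_sum h2
      _ = #S * (η / (#S + 1) * #P) := by rw [sum_const, nsmul_eq_mul]
      _ = (#S / (#S + 1)) * (η * #P) := by ring
      _ ≤ 1 * (η * #P) := by
          refine mul_le_mul_of_nonneg_right ?_ (by positivity)
          rw [div_le_one (by positivity)]
          linarith
      _ = η * #P := one_mul _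
  · rw [mem_sdiff] at ht
    by_contra hcon
    exact ht.2 (mem_filter.2 ⟨ht.1, hcon⟩)

theorem good_of_four {D : Set ℕ} {K t : ℕ} (ht0 : 0 < t) (ht : Even t) (h : Four D K t) :
    Pool.Agent.AAM.GoodMult D K t := by
  refine Pool.Agent.AAM.good_of (Z := ∅) ht0 ht (fun k _ => notMem_empty _) ?_
  rintro x y z hx hxy hyz hzK ⟨r, hr, h0, h1, h2, h3⟩
  have hclass : (∃ s < 3, ∀ i, (![0, x, y, z] : Fin 4 → ℕ) i % 3 ≠ s) ∨ 3 ∣ t := by
    by_cases h3t : 3 ∣ t
    · exact Or.inr h3t
    · left
      have ht3 : t % 3 = 1 ∨ t % 3 = 2 := by omega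
      rw [Nat.mul_mod] at h1 h2 h3
      have hx3 : x % 3 = 0 ∨ x % 3 = 1 ∨ x % 3 = 2 := by omega
      have hy3 : y % 3 = 0 ∨ y % 3 = 1 ∨ y % 3 = 2 := by omega
      have hz3 : z % 3 = 0 ∨ z % 3 = 1 ∨ z % 3 = 2 := by omega
      have hr3 : r = 1 ∨ r = 2 := by omega
      by_cases hc : ∃ s < 3, 0 % 3 ≠ s ∧ x % 3 ≠ s ∧ y % 3 ≠ s ∧ z % 3 ≠ s
      · obtain ⟨s, hs, g0, g1, g2, g3⟩ := hc
        refine ⟨s, hs, fun i => ?_⟩
        fin_cases i
        · exact g0
        · exact g1
        · exact g2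
        · exact g3
      · exfalso
        push Not at hc
        have c1 := hc 1 (by norm_num) (by norm_num)
        have c2 := hc 2 (by norm_num) (by norm_num)
        rcases ht3 with e | e <;> rcases hr3 with f | f <;> subst f <;>
          rcases hx3 with hx3 | hx3 | hx3 <;> rcases hy3 with hy3 | hy3 | hy3 <;>
          rcases hz3 with hz3 | hz3 | hz3 <;> rw [e, hx3] at h1 <;> rw [e, hy3] at h2 <;>
          rw [e, hz3] at h3 <;> simp_all
  have hmono : StrictMono (![0, x, y, z] : Fin 4 → ℕ) := by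
    rw [Fin.strictMono_iff_lt_succ]
    intro i
    fin_cases i
    · exact hx
    · exact hxy
    · exact hyz
  obtain ⟨i, j, hij, hd⟩ := h ![0, x, y, z] hmono hzK hclass
  have key : ∀ u : ℕ, u ∈ D → u ∈ D ∨ u ∈ (∅ : Finset ℕ) := fun u hu => Or.inl hu
  rw [Nat.sub_zero, Nat.sub_zero, Nat.sub_zero, ← Nat.sub_mul, ← Nat.sub_mul, ← Nat.sub_mul]
  refine ⟨_, ?_, key _ hd⟩
  fin_cases i <;> fin_cases j
  · exact absurd hij (by decide)
  · exact Or.inl rfl
  · exact Or.inr (Or.inl rfl)
  · exact Or.inr (Or.inr (Or.inl rfl))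
  · exact absurd hij (by decide)
  · exact absurd hij (by decide)
  · exact Or.inr (Or.inr (Or.inr (Or.inl rfl)))
  · exact Or.inr (Or.inr (Or.inr (Or.inr (Or.inl rfl))))
  · exact absurd hij (by decide)
  · exact absurd hij (by decide)
  · exact absurd hij (by decide)
  · exact Or.inr (Or.inr (Or.inr (Or.inr (Or.inr rfl))))
  · exact absurd hij (by decide)
  · exact absurd hij (by decide)
  · exact absurd hij (by decide)
  · exact absurd hij (by decide)

end Pool.Agent.Lib_helper25.K4R
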