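import Pool.Agent.Lib_helper25.K4R.Count

/-! The removal lemma for complete graphs with four vertices, from the regularity lemma. -/

set_option autoImplicit false

open Finset Fintype

namespace Pool.Agent.Lib_helper25.K4R

open SzemerediRegularity

variable {α : Type} [DecidableEq α] (G : SimpleGraph α) [DecidableRel G.Adj]

theorem unreduced_subset {A : Finset α} (P : Finpartition A) (e d : ℝ) :
    (A ×ˢ A).filter (fun (x, y) ↦ G.Adj x y ∧ ¬ (G.regularityReduced P e d).Adj x y) ⊆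
      (P.nonUniforms G e).biUnion (fun (U, V) ↦ U ×ˢ V) ∪ P.parts.biUnion offDiag ∪
        (P.sparsePairs G d).biUnion fun (U, V) ↦ G.interedges U V := by
  rintro ⟨x, y⟩
  simp only [mem_filter, SimpleGraph.regularityReduced_adj, not_and, not_exists,
    not_le, mem_biUnion, mem_union, mem_product, Prod.exists, mem_offDiag, and_imp,
    or_assoc, and_assoc, P.mk_mem_nonUniforms, Finpartition.mk_mem_sparsePairs,
    SimpleGraph.mem_interedges_iff]
  intro hx hy h h'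
  replace h' := h' h
  obtain ⟨U, hU, hx⟩ := P.exists_mem hx
  obtain ⟨V, hV, hy⟩ := P.exists_mem hy
  obtain rfl | hUV := eq_or_ne U V
  · exact Or.inr (Or.inl ⟨U, hU, hx, hy, G.ne_of_adj h⟩)
  by_cases h₂ : G.IsUniform e U V
  · exact Or.inr <| Or.inr ⟨U, V, hU, hV, hUV, h' _ hU _ hV hx hy hUV h₂, hx, hy, h⟩
  · exact Or.inl ⟨U, V, hU, hV, hUV, h₂, hx, hy⟩

theorem nat_aux {n k : ℕ} (hk : 0 < k) (hn : k ≤ n) : n < 2 * k * (n / k) := by
  rw [mul_assoc, two_mul, ← add_lt_add_iff_right (n % k), add_right_comm, add_assoc,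
    Nat.mod_add_div n k, add_comm, add_lt_add_iff_right]
  apply (Nat.mod_lt n hk).trans_le
  simpa using Nat.mul_le_mul_left k ((Nat.one_le_div_iff hk).2 hn)

theorem card_part_ge [Fintype α] {P : Finpartition (univ : Finset α)} (hP₁ : P.IsEquipartition)
    {b : ℕ} (hP₃ : #P.parts ≤ b) {s : Finset α} (hX : s ∈ P.parts) :
    card α / (2 * b : ℝ) ≤ #s := by
  cases isEmpty_or_nonempty α
  · simp [Fintype.card_eq_zero]
  have := Finset.Nonempty.card_pos ⟨_, hX⟩
  calc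
    _ ≤ card α / (2 * #P.parts : ℝ) := by gcongr
    _ ≤ ↑(card α / #P.parts) :=
      (div_le_iff₀' (by positivity)).2 <| mod_cast (nat_aux ‹_› P.card_parts_le_card).le
    _ ≤ (#s : ℝ) := mod_cast hP₁.average_le_card_part hX

/-- The removal lemma for complete graphs with four vertices: if there are few of them, a small set
of pairs meets all of them. -/
theorem removal (ε : ℝ) (hε : 0 < ε) (hε1 : ε ≤ 1) : ∃ (l : ℕ) (δ : ℝ), 0 < δ ∧
    ∀ (α : Type) [Fintype α] [DecidableEq α] (G : SimpleGraph α) [DecidableRel G.Adj],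
      l ≤ card α → (#((univ : Finset (α × α × α × α)).filter fun (x, a, b, c) ↦
        G.Adj x a ∧ G.Adj x b ∧ G.Adj x c ∧ G.Adj a b ∧ G.Adj a c ∧ G.Adj b c) : ℝ) <
          δ * (card α : ℝ) ^ 4 →
      ∃ F : Finset (α × α), (#F : ℝ) ≤ 2 * ε * (card α : ℝ) ^ 2 ∧ ∀ x a b c : α,
        G.Adj x a → G.Adj x b → G.Adj x c → G.Adj a b → G.Adj a c → G.Adj b c →
          (x, a) ∈ F ∨ (x, b) ∈ F ∨ (x, c) ∈ F ∨ (a, b) ∈ F ∨ (a, c) ∈ F ∨ (b, c) ∈ F := by
  set d : ℝ := ε / 4 with hd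
  have hd0 : 0 < d := by positivity
  have hd1 : d ≤ 1 := by rw [hd]; linarith
  set e : ℝ := d ^ 2 / 16 with he
  have he0 : 0 < e := by positivity
  set l : ℕ := ⌈4 / ε⌉₊ with hl
  have hl' : 4 / ε ≤ l := Nat.le_ceil _
  have hb0 : 0 < bound e l := bound_pos _ _
  refine ⟨l + 1, d ^ 6 / 2048 * (1 / (2 * bound e l : ℝ)) ^ 4, by positivity, ?_⟩
  intro α _ _ G _ hcard hfew
  classical
  have hne : Nonempty α := by
    rw [← Fintype.card_pos_iff]
    omega
  obtain ⟨P, hP₁, hP₂, hP₃, hP₄⟩ := szemeredi_regularity G he0 (show l ≤ card α by omega)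
  have hP' : 4 / ε ≤ (#P.parts : ℝ) := hl'.trans (by exact_mod_cast hP₂)
  refine ⟨((univ : Finset α) ×ˢ univ).filter
    (fun (x, y) ↦ G.Adj x y ∧ ¬ (G.regularityReduced P e d).Adj x y), ?_, ?_⟩
  · have h1 : (#(((univ : Finset α) ×ˢ univ).filter
        (fun (x, y) ↦ G.Adj x y ∧ ¬ (G.regularityReduced P e d).Adj x y)) : ℝ) ≤
        #((P.nonUniforms G e).biUnion (fun (U, V) ↦ U ×ˢ V)) + #(P.parts.biUnion offDiag) +
        #((P.sparsePairs G d).biUnion fun (U, V) ↦ G.interedges U V) := by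
      have h2 := (card_le_card (unreduced_subset G P e d)).trans
        ((card_union_le _ _).trans (Nat.add_le_add_right (card_union_le _ _) _))
      exact_mod_cast h2
    have h2 := hP₁.sum_nonUniforms_lt univ_nonempty he0 hP₄
    have h3 := hP₁.card_biUnion_offDiag_le hε hP'
    have h4 := hP₁.card_interedges_sparsePairs_le (G := G) (ε := d) hd0.le
    rw [card_univ] at h2 h3 h4
    have hc : (0 : ℝ) ≤ (card α : ℝ) ^ 2 := by positivity
    have h5 : 4 * e * (card α : ℝ) ^ 2 + ε / 2 * (card α : ℝ) ^ 2 + 4 * d * (card α : ℝ) ^ 2 ≤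
        2 * ε * (card α : ℝ) ^ 2 := by
      have h6 : 4 * e + ε / 2 + 4 * d ≤ 2 * ε := by
        rw [he, hd]
        nlinarith
      calc _ = (4 * e + ε / 2 + 4 * d) * (card α : ℝ) ^ 2 := by ring
        _ ≤ _ := mul_le_mul_of_nonneg_right h6 hc
    linarith
  · intro x a b c hxa hxb hxc hab hac hbc
    by_contra hcon
    simp only [mem_filter, mem_product, mem_univ, true_and, not_or, not_and, not_not] at hcon
    obtain ⟨r1, r2, r3, r4, r5, r6⟩ := hcon
    replace r1 := r1 hxa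
    replace r2 := r2 hxb
    replace r3 := r3 hxc
    replace r4 := r4 hab
    replace r5 := r5 hac
    replace r6 := r6 hbc
    obtain ⟨-, s, hs, t, ht, xs, at', nst, ust, dst⟩ := r1
    obtain ⟨-, s2, hs2, u, hu, xs2, bu, nsu, usu, dsu⟩ := r2
    obtain ⟨-, s3, hs3, v, hv, xs3, cv, nsv, usv, dsv⟩ := r3
    obtain ⟨-, t2, ht2, u2, hu2, at2, bu2, ntu, utu, dtu⟩ := r4
    obtain ⟨-, t3, ht3, v2, hv2, at3, cv2, ntv, utv, dtv⟩ := r5
    obtain ⟨-, u3, hu3, v3, hv3, bu3, cv3, nuv, uuv, duv⟩ := r6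
    cases P.disjoint.elim hs hs2 (not_disjoint_iff.2 ⟨x, xs, xs2⟩)
    cases P.disjoint.elim hs hs3 (not_disjoint_iff.2 ⟨x, xs, xs3⟩)
    cases P.disjoint.elim ht ht2 (not_disjoint_iff.2 ⟨a, at', at2⟩)
    cases P.disjoint.elim ht ht3 (not_disjoint_iff.2 ⟨a, at', at3⟩)
    cases P.disjoint.elim hu hu2 (not_disjoint_iff.2 ⟨b, bu, bu2⟩)
    cases P.disjoint.elim hu hu3 (not_disjoint_iff.2 ⟨b, bu, bu3⟩)
    cases P.disjoint.elim hv hv2 (not_disjoint_iff.2 ⟨c, cv, cv2⟩)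
    cases P.disjoint.elim hv hv3 (not_disjoint_iff.2 ⟨c, cv, cv3⟩)
    have hcnt := k4_count G hd0 hd1 s t u v ust dst usu dsu usv dsv utu dtu utv dtv uuv duv
    have h1 : (#((s ×ˢ t ×ˢ u ×ˢ v).filter fun (x, a, b, c) ↦ G.Adj x a ∧ G.Adj x b ∧ G.Adj x c ∧
        G.Adj a b ∧ G.Adj a c ∧ G.Adj b c) : ℝ) ≤
        (#((univ : Finset (α × α × α × α)).filter fun (x, a, b, c) ↦
        G.Adj x a ∧ G.Adj x b ∧ G.Adj x c ∧ G.Adj a b ∧ G.Adj a c ∧ G.Adj b c) : ℝ) := by
      exact_mod_cast card_le_card (filter_subset_filter _ (subset_univ _))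
    have k1 := card_part_ge hP₁ hP₃ hs
    have k2 := card_part_ge hP₁ hP₃ ht
    have k3 := card_part_ge hP₁ hP₃ hu
    have k4 := card_part_ge hP₁ hP₃ hv
    have h2 : d ^ 6 / 2048 * (1 / (2 * bound e l : ℝ)) ^ 4 * (card α : ℝ) ^ 4 ≤
        d ^ 6 / 2048 * (#s * #t * #u * #v) := by
      calc d ^ 6 / 2048 * (1 / (2 * bound e l : ℝ)) ^ 4 * (card α : ℝ) ^ 4
          = d ^ 6 / 2048 * ((card α / (2 * bound e l : ℝ)) * (card α / (2 * bound e l : ℝ)) *
            (card α / (2 * bound e l : ℝ)) * (card α / (2 * bound e l : ℝ))) := by ring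
        _ ≤ _ := by gcongr
    exact absurd (h2.trans (hcnt.trans h1)) (not_le.2 hfew)

end Pool.Agent.Lib_helper25.K4R
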